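import Pool.Agent.H486.LP.Stm3

/-!
# Qe: sums of cosines (helper295)

The eigenvalues for an imaginary exponent near zero.
-/

set_option autoImplicit false

namespace Pool.Agent.H295.LP

/-- **Task Qe.** -/
theorem qe : Pool.Agent.H486.LP.S_xedge := by
  intro p K τ hp h
  have hlog : 0 ≤ Real.log p := Real.log_natCast_nonneg p
  have hterm : ∀ m ∈ Finset.range (K + 1), ∀ j ∈ Finset.range (2 * m + 1),
      (1 / 2 : ℝ) ≤ Real.cos (2 * ((j : ℝ) - m) * (τ * Real.log p)) := by
    intro m hm j hj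
    rw [Finset.mem_range] at hm hj
    have hmK : (m : ℝ) ≤ K := by exact_mod_cast Nat.lt_succ_iff.1 hm
    have hj2 : (j : ℝ) ≤ 2 * m := by exact_mod_cast Nat.lt_succ_iff.1 hj
    have hj0 : (0 : ℝ) ≤ j := Nat.cast_nonneg j
    have habs : |(j : ℝ) - m| ≤ K := by
      rw [abs_le]
      constructor <;> linarith
    have hx : |2 * ((j : ℝ) - m) * (τ * Real.log p)| ≤ 1 := by
      rw [abs_mul, abs_mul, abs_mul, abs_of_nonneg hlog, abs_two]
      refine le_trans ?_ h
      gcongr
    have h1 := Real.one_sub_sq_div_two_le_cos (x := 2 * ((j : ℝ) - m) * (τ * Real.log p))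
    have h2 : (2 * ((j : ℝ) - m) * (τ * Real.log p)) ^ 2 ≤ 1 := by
      rw [← sq_abs]
      exact pow_le_one₀ (abs_nonneg _) hx
    linarith
  have hsum : ∑ m ∈ Finset.range (K + 1), ∑ j ∈ Finset.range (2 * m + 1), (1 / 2 : ℝ) =
      ((K : ℝ) + 1) ^ 2 / 2 := by
    clear hterm h
    induction K with
    | zero => simp
    | succ n ih =>
      rw [Finset.sum_range_succ, ih]
      simp only [Finset.sum_const, Finset.card_range, nsmul_eq_mul]
      push_cast
      ring
  rw [← hsum]
  exact Finset.sum_le_sum fun m hm => Finset.sum_le_sum fun j hj => hterm m hm j hj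

end Pool.Agent.H295.LP
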